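import Pool.Agent.Run7.h590.HP.DET
import Pool.Agent.Run7.h633.HP.Univ

/-! Project hp (helper802), piece DISC, sub-piece DET: the determinant of the second partial
derivatives of the universal form at the universal point does not vanish. -/

set_option autoImplicit false

namespace Run7.h590.HP

open MvPolynomial Pool.Agent.Run7.h802.HP Pool.Agent.Run7.h633.HP

/-- The determinant of the second derivatives commutes with ring homomorphisms. -/
theorem hess_map {R S : Type} [CommRing R] [CommRing S] (f : R →+* S) {n d : ℕ}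
    (a : Mon n d → R) (x : Fin (n + 2) → R) :
    f (hess a x) = hess (fun m => f (a m)) (fun i => f (x i)) := by
  rw [hess_eq, hess_eq, RingHom.map_det]
  congr 1
  ext i k
  simp only [RingHom.mapMatrix_apply, Matrix.map_apply, Matrix.of_apply]
  exact L_map f _ a x

theorem det_ne {n d : ℕ} (hd : 3 ≤ d) :
    hess (al (by omega : 1 ≤ d) (0 : Fin (n + 2))) (xi n d 0) ≠ 0 := by
  obtain ⟨a, h0, h1, h2⟩ := node_form n d (by omega) 0
  have hx : (Pi.single 0 1 : Fin (n + 2) → ℤ) 0 = 1 := Pi.single_eq_same 0 1
  have e0 : E a (Pi.single 0 1) = 0 := by rw [← eval_form]; exact h0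
  have e1 : ∀ i, i ≠ 0 → E1 i a (Pi.single 0 1) = 0 := by
    intro i _
    rw [← eval_pderiv]
    exact h1 i
  intro hzero
  have key := congrArg (psi 0 a (Pi.single 0 1)) hzero
  rw [map_zero, hess_map] at key
  have ha : (fun m => psi 0 a (Pi.single 0 1) (al (by omega : 1 ≤ d) (0 : Fin (n + 2)) m)) = a := by
    funext m
    exact psi_al _ 0 a _ hx e0 e1 m
  have hxi : (fun i => psi 0 a (Pi.single 0 1) (xi n d 0 i)) = Pi.single 0 1 := by
    funext i
    exact psi_xi 0 a _ hx i
  rw [ha, hxi] at key
  unfold hess at key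
  have hM : (Matrix.of fun i j : Fin (n + 1) =>
      eval (Pi.single 0 1 : Fin (n + 2) → ℤ) (pderiv i.succ (pderiv j.succ (form a)))) =
      (2 : ℤ) • (1 : Matrix (Fin (n + 1)) (Fin (n + 1)) ℤ) := by
    ext i j
    rw [Matrix.of_apply, h2 _ _ (Fin.succ_ne_zero i) (Fin.succ_ne_zero j), Matrix.smul_apply,
      Matrix.one_apply]
    by_cases hij : i = j
    · subst hij
      simp
    · rw [if_neg (fun h => hij (Fin.succ_injective _ h)), if_neg hij]
      simp
  rw [hM, Matrix.det_smul, Matrix.det_one] at key
  norm_num at key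

end Run7.h590.HP
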