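import Pool.Agent.Run7.h802.HP.Iface

/-! Piece MIN of the project hp (helper802): a dependent family in a domain of characteristic zero
has an irreducible equation with a nonvanishing partial derivative. -/

set_option autoImplicit false

namespace Run7.h590.HP

open MvPolynomial Pool.Agent.Run7.h802.HP

/-- Clearing denominators. -/
theorem clear_den {σ : Type} (P : MvPolynomial σ ℚ) : ∃ (c : ℤ) (D : MvPolynomial σ ℤ), c ≠ 0 ∧
    map (Int.castRingHom ℚ) D = C (c : ℚ) * P := by
  induction P using MvPolynomial.induction_on' with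
  | monomial m a =>
    refine ⟨a.den, monomial m a.num, by exact_mod_cast a.den_ne_zero, ?_⟩
    rw [map_monomial, C_mul_monomial]
    congr 1
    have h := Rat.mul_den_eq_num a
    simp only [eq_intCast, Int.cast_natCast]
    rw [← h]; ring
  | add p q hp hq =>
    obtain ⟨c, D, hc, hD⟩ := hp
    obtain ⟨c', D', hc', hD'⟩ := hq
    refine ⟨c * c', C c' * D + C c * D', mul_ne_zero hc hc', ?_⟩
    simp only [map_add, map_mul, map_C, Int.coe_castRingHom, hD, hD', Int.cast_mul]
    ring

theorem map_inj {σ : Type} : Function.Injective (map (σ := σ) (Int.castRingHom ℚ)) :=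
  map_injective _ (RingHom.injective_int _)

/-- A nonconstant polynomial of characteristic zero has a nonzero partial derivative. -/
theorem exists_pderiv_ne_zero {σ : Type} (h : MvPolynomial σ ℤ) (hd : h.totalDegree ≠ 0) :
    ∃ m, pderiv m h ≠ 0 := by
  classical
  by_contra hcon
  push Not at hcon
  apply hd
  rw [totalDegree_eq_zero_iff]
  intro m hm i
  by_contra hi
  have h1 := coeff_pderiv (i := i) h (m - Finsupp.single i 1)
  rw [hcon i, coeff_zero] at h1
  have h2 : m - Finsupp.single i 1 + Finsupp.single i 1 = m := by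
    apply tsub_add_cancel_of_le
    rw [Finsupp.single_le_iff]
    omega
  rw [h2] at h1
  rw [mem_support_iff] at hm
  have h3 : (((m - Finsupp.single i 1 : σ →₀ ℕ) i : ℤ) + 1) ≠ 0 := by positivity
  exact (mul_ne_zero hm h3) h1.symm

/-- Taking a partial derivative lowers the total degree. -/
theorem totalDegree_pderiv_lt {σ : Type} (h : MvPolynomial σ ℤ) (m : σ) (hm : pderiv m h ≠ 0) :
    (pderiv m h).totalDegree < h.totalDegree := by
  classical
  obtain ⟨s, hs, hs2⟩ : ∃ s ∈ (pderiv m h).support,
      (pderiv m h).totalDegree = s.sum fun _ e => e := by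
    have hne : (pderiv m h).support.Nonempty := by
      rw [Finset.nonempty_iff_ne_empty]
      intro h0
      exact hm (support_eq_empty.1 h0)
    obtain ⟨s, hs, h1⟩ := Finset.exists_mem_eq_sup _ hne (fun s : σ →₀ ℕ => s.sum fun _ e => e)
    exact ⟨s, hs, h1⟩
  rw [hs2]
  rw [mem_support_iff, coeff_pderiv] at hs
  have h2 : coeff (s + Finsupp.single m 1) h ≠ 0 := left_ne_zero_of_mul hs
  have h3 := le_totalDegree (mem_support_iff.2 h2)
  rw [Finsupp.sum_add_index' (by simp) (by simp), Finsupp.sum_single_index rfl] at h3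
  omega

theorem min : S_MIN := by
  intro σ _ A _ _ _ α hα
  classical
  -- a nonzero relation
  have hex : ∃ n : ℕ, ∃ h : MvPolynomial σ ℤ, h ≠ 0 ∧ aeval α h = 0 ∧ h.totalDegree = n := by
    by_contra hcon
    push Not at hcon
    apply hα
    rw [algebraicIndependent_iff]
    intro p hp
    by_contra hne
    exact hcon _ p hne hp rfl
  obtain ⟨h, hne, hker, hdeg⟩ := Nat.find_spec hex
  have hmin : ∀ g : MvPolynomial σ ℤ, g ≠ 0 → aeval α g = 0 → h.totalDegree ≤ g.totalDegree := by
    intro g hg hg2
    rw [hdeg]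
    exact Nat.find_min' hex ⟨g, hg, hg2, rfl⟩
  refine ⟨h, hne, hker, ?_, ?_⟩
  · have hd : h.totalDegree ≠ 0 := by
      intro h0
      rw [totalDegree_eq_zero_iff_eq_C] at h0
      rw [h0] at hker hne
      simp only [aeval_C] at hker
      apply hne
      have h1 : (algebraMap ℤ A) (coeff 0 h) = ((coeff 0 h : ℤ) : A) := by simp
      rw [h1] at hker
      have h2 : coeff 0 h = 0 := by exact_mod_cast hker
      rw [h2, map_zero]
    obtain ⟨m, hm⟩ := exists_pderiv_ne_zero h hd
    refine ⟨m, fun h0 => ?_⟩
    have h1 := totalDegree_pderiv_lt h m hm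
    have h2 := hmin _ hm h0
    omega
  · intro g hg D' hD1 hD2
    obtain ⟨E', hE⟩ := hD1
    obtain ⟨F', hF⟩ := hD2
    obtain ⟨c, D, hc, hD⟩ := clear_den D'
    obtain ⟨e, E, he, hE'⟩ := clear_den E'
    obtain ⟨f, F, hf, hF'⟩ := clear_den F'
    have key1 : C (c * e) * h = D * E := by
      apply map_inj
      simp only [map_mul, hD, hE', hE, map_C, Int.coe_castRingHom]
      ring
    have key2 : C (c * f) * g = D * F := by
      apply map_inj
      simp only [map_mul, hD, hF', hF, map_C, Int.coe_castRingHom]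
      ring
    have hDa : aeval α D ≠ 0 := by
      intro h0
      have h1 := congrArg (aeval α) key2
      rw [map_mul (aeval α) (C (c * f)) g, map_mul (aeval α) D F, h0, zero_mul, aeval_C] at h1
      have h2 : (algebraMap ℤ A) (c * f) ≠ 0 := by
        have h3 : (algebraMap ℤ A) (c * f) = ((c * f : ℤ) : A) := by simp
        rw [h3]
        exact_mod_cast mul_ne_zero hc hf
      exact (mul_ne_zero h2 hg) h1
    have hEa : aeval α E = 0 := by
      have h1 := congrArg (aeval α) key1
      rw [map_mul (aeval α) (C (c * e)) h, map_mul (aeval α) D E, hker, mul_zero] at h1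
      rcases mul_eq_zero.1 h1.symm with h2 | h2
      · exact absurd h2 hDa
      · exact h2
    have hh' : C (c * e) * h ≠ 0 := mul_ne_zero (by
      rw [Ne, C_eq_zero]
      exact mul_ne_zero hc he) hne
    rw [key1] at hh'
    have hD0 : D ≠ 0 := left_ne_zero_of_mul hh'
    have hE0 : E ≠ 0 := right_ne_zero_of_mul hh'
    have hdeg1 : (D * E).totalDegree = D.totalDegree + E.totalDegree :=
      totalDegree_mul_of_isDomain hD0 hE0
    rw [← key1, totalDegree_mul_of_isDomain (by
      rw [Ne, C_eq_zero]
      exact mul_ne_zero hc he) hne, totalDegree_C] at hdeg1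
    have hdeg2 := hmin E hE0 hEa
    have hDdeg : D.totalDegree = 0 := by omega
    rw [totalDegree_eq_zero_iff_eq_C] at hDdeg
    have hcD : coeff 0 D ≠ 0 := by
      intro h0
      apply hD0
      rw [hDdeg, h0, map_zero]
    obtain ⟨z, hz⟩ : ∃ z : ℤ, z = coeff 0 D := ⟨_, rfl⟩
    rw [← hz] at hDdeg hcD
    have hfin : D' = C ((z : ℚ) / c) := by
      have hc' : (c : ℚ) ≠ 0 := by exact_mod_cast hc
      have h1 : C (c : ℚ) * D' = C (c : ℚ) * C ((z : ℚ) / c) := by
        rw [← hD, ← C_mul, hDdeg, map_C, mul_div_cancel₀ _ hc']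
        simp
      exact mul_left_cancel₀ (by rwa [Ne, C_eq_zero]) h1
    rw [hfin]
    apply IsUnit.map
    rw [isUnit_iff_ne_zero]
    have hc' : (c : ℚ) ≠ 0 := by exact_mod_cast hc
    have hcD' : (z : ℚ) ≠ 0 := by exact_mod_cast hcD
    exact div_ne_zero hcD' hc'

end Run7.h590.HP
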