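import Pool.Agent.Run7.h216.BP.Form

/-! Project hp (helper802), piece DISC: a form over the integers with a nondegenerate singular
point at a coordinate point. -/

set_option autoImplicit false

namespace Run7.h590.HP

open MvPolynomial Pool.Agent.Run7.h802.HP

/-- The form `X_j ^ (d - 2) * ∑_{i ≠ j} X_i ^ 2`: its second derivatives at the `j`-th coordinate
point form twice the unit matrix. -/
theorem node_form (n d : ℕ) (hd : 2 ≤ d) (j : Fin (n + 2)) : ∃ a : Mon n d → ℤ,
    eval (Pi.single j 1) (form a) = 0 ∧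
    (∀ i, eval (Pi.single j 1) (pderiv i (form a)) = 0) ∧
    ∀ i k, i ≠ j → k ≠ j →
      eval (Pi.single j 1) (pderiv i (pderiv k (form a))) = if i = k then 2 else 0 := by
  classical
  have hhom : (X j ^ (d - 2) * ∑ i ∈ Finset.univ.erase j, X i ^ 2 :
      MvPolynomial (Fin (n + 2)) ℤ).IsHomogeneous d := by
    have h1 : (∑ i ∈ Finset.univ.erase j, X i ^ 2 :
        MvPolynomial (Fin (n + 2)) ℤ).IsHomogeneous 2 :=
      IsHomogeneous.sum _ _ _ fun i _ => isHomogeneous_X_pow i 2
    have h2 := (isHomogeneous_X_pow (R := ℤ) j (d - 2)).mul h1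
    rwa [Nat.sub_add_cancel hd] at h2
  obtain ⟨a, ha⟩ := Pool.Agent.Run7.h216.BP.exists_form hhom
  refine ⟨a, ?_, ?_, ?_⟩
  · rw [ha, map_mul, map_sum, Finset.sum_eq_zero, mul_zero]
    intro i hi
    simp [Finset.ne_of_mem_erase hi]
  · intro i
    rw [ha, Derivation.leibniz, map_sum]
    simp only [smul_eq_mul, map_add, map_mul, map_sum]
    rw [Finset.sum_eq_zero, Finset.sum_eq_zero, mul_zero, zero_mul, add_zero]
    · intro k hk
      simp [Finset.ne_of_mem_erase hk]
    · intro k hk
      simp [Finset.ne_of_mem_erase hk]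
  · intro i k hi hk
    have hpk : pderiv k (form a) = X j ^ (d - 2) * (2 * X k) := by
      rw [ha, Derivation.leibniz, map_sum]
      have h1 : pderiv k (X j ^ (d - 2) : MvPolynomial (Fin (n + 2)) ℤ) = 0 := by
        rw [Derivation.leibniz_pow, pderiv_X_of_ne (Ne.symm hk)]
        simp
      rw [h1, smul_zero, add_zero, Finset.sum_eq_single k]
      · rw [Derivation.leibniz_pow, pderiv_X_self]
        simp
      · intro l _ hl
        rw [Derivation.leibniz_pow, pderiv_X_of_ne hl]
        simp
      · intro hh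
        exact absurd (Finset.mem_erase.2 ⟨hk, Finset.mem_univ _⟩) hh
    rw [hpk, Derivation.leibniz]
    have h1 : pderiv i (X j ^ (d - 2) : MvPolynomial (Fin (n + 2)) ℤ) = 0 := by
      rw [Derivation.leibniz_pow, pderiv_X_of_ne (Ne.symm hi)]
      simp
    rw [h1, smul_zero, add_zero, Derivation.leibniz]
    have h2 : pderiv i (2 : MvPolynomial (Fin (n + 2)) ℤ) = 0 := by
      have : (2 : MvPolynomial (Fin (n + 2)) ℤ) = C 2 := by simp
      rw [this, pderiv_C]
    rw [h2, smul_zero, add_zero, pderiv_X]
    by_cases hik : i = k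
    · subst hik
      simp
    · simp [hik]

end Run7.h590.HP
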